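import Pool.Agent.H48.FXD.Defs

/-!
# MP_ea41d9_gt, row MCA: an isometric action is continuous
-/

open Bundle Manifold Filter Set MeasureTheory
open scoped ContDiff Topology ENNReal

namespace Pool.Agent.H5.FXD

open Pool.Agent.H48.FXD

variable {E : Type*} [NormedAddCommGroup E] [NormedSpace ℝ E] [FiniteDimensional ℝ E]
  {M : Type*} [MetricSpace M] [ChartedSpace E M] [IsManifold 𝓘(ℝ, E) ∞ M]
  [RiemannianBundle (fun x : M => TangentSpace 𝓘(ℝ, E) x)]
  [IsContMDiffRiemannianBundle 𝓘(ℝ, E) ∞ E (fun x : M => TangentSpace 𝓘(ℝ, E) x)]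
  [IsRiemannianManifold 𝓘(ℝ, E) M]

omit [FiniteDimensional ℝ E] in
theorem continuous_zero : Continuous (fun x : M => (⟨x, 0⟩ : TangentBundle 𝓘(ℝ, E) M)) := by
  have h : ContMDiff 𝓘(ℝ, E) (𝓘(ℝ, E).prod 𝓘(ℝ, E)) 0
      (zeroSection E (TangentSpace 𝓘(ℝ, E) : M → Type _)) :=
    contMDiff_zeroSection ℝ _
  exact h.continuous

theorem pf_MCA {G : Type*} [Group G] [TopologicalSpace G] [MulAction G M]
    (hact : IsometricAction E M G) : Continuous fun p : G × M => p.1 • p.2 := by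
  have h1 : Continuous fun p : G × M =>
      ((p.1, (⟨p.2, 0⟩ : TangentBundle 𝓘(ℝ, E) M)) : G × TangentBundle 𝓘(ℝ, E) M) :=
    continuous_fst.prodMk (continuous_zero.comp continuous_snd)
  have h2 := hact.continuous_tangent.comp h1
  have h3 : Continuous (fun p : TangentBundle 𝓘(ℝ, E) M => p.proj) :=
    FiberBundle.continuous_proj E (TangentSpace 𝓘(ℝ, E) : M → Type _)
  exact h3.comp h2

end Pool.Agent.H5.FXD
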